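import Pool.Agent.Run7.h575.HF.A5

set_option autoImplicit false

open scoped Manifold ContDiff Topology Pointwise
open Set Filter

namespace Pool.Agent.Results.MP_5c499f_an.HomogeneousFoliationGrowth

open Pool.Agent.H721R2 Pool.Agent.H789R2.AN Pool.Agent.Y330.N Pool.Agent.TH289.K

/-- The stable leaf of `x` for the map `f`: the points whose forward orbit is asymptotic to that of
`x`. -/
def leaf {M : Type*} [TopologicalSpace M] (f : M → M) (x : M) : Set M :=
  {y | Tendsto (fun n : ℕ => (f^[n] x, f^[n] y)) atTop (𝓝ˢ (diagonal M))}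

/-- The orbit of `z` under the group of all the homeomorphisms of `M` that map every stable leaf of
`f` onto a stable leaf of `f`. -/
def leafOrbit {M : Type*} [TopologicalSpace M] (f : M → M) (z : M) : Set M :=
  {y | ∃ φ : M ≃ₜ M, (∀ a b, b ∈ leaf f a ↔ φ b ∈ leaf f (φ a)) ∧ φ z = y}

/-- `R` is nonempty, closed, invariant under `f` (`f x ∈ R ↔ x ∈ R`) and a union of stable leaves
of `f`. -/
def Saturated {M : Type*} [TopologicalSpace M] (f : M → M) (R : Set M) : Prop :=
  IsClosed R ∧ R.Nonempty ∧ (∀ x, f x ∈ R ↔ x ∈ R) ∧ ∀ x ∈ R, leaf f x ⊆ R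

/-- `R` is a minimal nonempty closed invariant union of stable leaves of `f`.  (There are such sets;
if `f` is a topologically transitive Anosov diffeomorphism then `R = M` is the only one.) -/
def MinimalSaturated {M : Type*} [TopologicalSpace M] (f : M → M) (R : Set M) : Prop :=
  Saturated f R ∧ ∀ R', Saturated f R' → R' ⊆ R → R' = R

/-- **Anosov diffeomorphisms with a topologically homogeneous foliation.**
Let `f` be a `C¹` Anosov diffeomorphism of a closed connected manifold `M` modelled on the
finite-dimensional space `E`, and `g = f` or `g = f⁻¹`.  Let `H` be the group of all the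
homeomorphisms of `M` that map the stable leaves of `g` (the stable leaves of `f` if `g = f`, the
unstable leaves of `f` if `g = f⁻¹`) onto stable leaves of `g`; they need not be related to `f` in
any other way, nor to the other foliation.  Suppose that

* no orbit of `H` is meagre (for instance, `H` acts transitively on `M`), or
* `f` is topologically transitive and at least one orbit of `H` is not meagre, or
* for some minimal nonempty closed invariant union `R` of stable leaves of `g`, the orbit under `H`
  of at least one point of `R` is not meagre (this follows from each of the first two conditions).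

Then `f` has the following properties of the hyperbolic infranilmanifold automorphisms with this
property (for which the stable, or the unstable, subgroup is normal):

* the stable holonomies of `g` are uniformly bounded (`BoundedHolonomy g 𝒰`, for every sufficiently
  small neighbourhood `𝒰` of the diagonal): for some `k` they increase the levels by at most `k`, for
  all pairs of points and all stable paths, of whatever length.  (The level of two points of an
  unstable leaf is at most `i` if `g⁻ⁿ x` and `g⁻ⁿ y` are `𝒰`-close for all integers `n ≥ i`,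
  `ZLevel`; it is a dynamical version of the logarithm of the distance in the unstable leaf.)
* `f` is topologically transitive and has global product structure (`GPS`);
* the fundamental group of `M` has polynomial growth: there is an exponent `d` such that for every
  finite set `S` of elements of `π₁(M, x)` the number of products of `n` elements of `S` is at most
  `C (n + 1) ^ d`, `C = C(S)`. -/
theorem result (E : Type*) [NormedAddCommGroup E] [NormedSpace ℝ E] [FiniteDimensional ℝ E]
    (M : Type*) [TopologicalSpace M] [T2Space M] [CompactSpace M] [ConnectedSpace M]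
    [ChartedSpace E M] [IsManifold 𝓘(ℝ, E) ∞ M] (f : Diffeomorph 𝓘(ℝ, E) 𝓘(ℝ, E) M M 1)
    (Es Eu : ∀ x : M, Submodule ℝ (TangentSpace 𝓘(ℝ, E) x)) (hA : IsAnosov f Es Eu)
    (g : M ≃ₜ M) (hg : g = f.toHomeomorph ∨ g = f.toHomeomorph.symm)
    (h : (∀ z, ¬ IsMeagre (leafOrbit g z)) ∨
      (TopTransitive f ∧ ∃ z, ¬ IsMeagre (leafOrbit g z)) ∨
      ∃ R, MinimalSaturated g R ∧ ∃ z ∈ R, ¬ IsMeagre (leafOrbit g z)) :
    (∃ 𝒰₀ ∈ 𝓝ˢ (diagonal M), ∀ 𝒰 ∈ 𝓝ˢ (diagonal M), 𝒰 ⊆ 𝒰₀ → BoundedHolonomy g 𝒰) ∧
      TopTransitive f ∧ GPS f.toHomeomorph ∧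
      ∃ d : ℕ, ∀ (x : M) (S : Set (FundamentalGroup M x)), S.Finite →
        ∃ C : ℕ, ∀ n : ℕ, (S ^ n).ncard ≤ C * (n + 1) ^ d := by
  obtain ⟨𝒰₀, h1, h2⟩ := Run7.h575.HF.man_fol f Es Eu hA
  obtain ⟨-, h3, h4⟩ := h2 𝒰₀ h1 Subset.rfl g hg
  obtain ⟨k1, k2, -, k3⟩ := h4 (h3 h)
  exact ⟨⟨𝒰₀, h1, fun 𝒰 h𝒰 hsub => (h2 𝒰 h𝒰 hsub g hg).2.1 h⟩, k1, k2, k3⟩

end Pool.Agent.Results.MP_5c499f_an.HomogeneousFoliationGrowth
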