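import Pool.Agent.Run7.h105.AN.Meas
import Pool.Agent.H147R2.RI.JF

/-!
# MP_5c499f_an: Anosov diffeomorphisms that preserve an infinite measure, with bounded distortion

The starting theorem `MP_5c499f_an.PeriodicDistortionToral` says that a `C²` Anosov diffeomorphism with
bundles of rank at least two, whose return maps at the periodic points have bounded distortion on one
bundle, is topologically conjugate to an infra-toral automorphism if every point is nonwandering (or
under a condition on the determinants at all pairs of periodic points of certain heteroclinic orbits).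
Helper742 proved (`MP_610fe3_an.InfiniteInvariantMeasure`) that an Anosov diffeomorphism which preserves a
measure, possibly infinite on all open sets that meet some closed set, is transitive if the measure is
comparable to Lebesgue measure near some point of each unstable leaf; and that it is enough to know the
determinants at the periodic points in an open set that meets all unstable leaves. Here both are put
together to a case of Q1.
-/

set_option autoImplicit false

open scoped Manifold ContDiff Topology Bundle ENNReal
open Set Filter Bundle MeasureTheory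

namespace Pool.Agent.Results.MP_5c499f_an.InfiniteMeasureToral

open Pool.Agent.H721R2 Pool.Agent.H789R2.AN Pool.Agent.H779R2.An Pool.Agent.H779R2.To
  Pool.Agent.H779R2.Nu Pool.Agent.H147R2.RI Pool.Agent.H576R3.CF
open Run7.h105.AN (PeriodicDistortion PreservesMeasure LocalDeterminants transitive nonwandering)

/-- **Anosov diffeomorphisms that preserve an infinite measure, with bounded distortion.**
Let `f` be a `C²` Anosov diffeomorphism of a closed connected smooth manifold `M`, with splitting
`TM = Es ⊕ Eu` of ranks `ds, du ≥ 2`.  Suppose that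

* the return maps `D(fᵏ)(p)`, `fᵏ(p) = p`, have uniformly bounded distortion on ONE of the two
  bundles (`PeriodicDistortion`); nothing is assumed on the other bundle; and
* `f` preserves a Borel measure of `M`, of finite or infinite mass, such that every unstable leaf (or
  every stable leaf) contains a point near which it is comparable to Lebesgue measure
  (`PreservesMeasure`); or there is an open set that meets every unstable leaf such that
  `|det D(fᵏ)(p)| ≥ 1` at the periodic points in this set, or one that meets every stable leaf such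
  that `|det D(fᵏ)(p)| ≤ 1` at the periodic points in it (`LocalDeterminants`).

Then `f` is topologically conjugate to a hyperbolic infra-toral automorphism, in particular
finitely covered by a hyperbolic toral automorphism: there are a matrix `A` in `GL(m, ℤ)` without
eigenvalues of modulus one and a covering map `P : ℝᵐ → M` with `f ∘ P = P ∘ A`, such that `P` is
`ℤᵐ`-periodic, every fibre of `P` is a finite union of `ℤᵐ`-orbits, and the deck transformations
of `P` (which are transitive on the fibres) are affine maps `x ↦ B x + c` with `B ∈ GL(m, ℤ)`. -/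
theorem result (E : Type*) [NormedAddCommGroup E] [NormedSpace ℝ E] [FiniteDimensional ℝ E]
    [MeasurableSpace E] [BorelSpace E] (ν : Measure E) [ν.IsAddHaarMeasure]
    (M : Type*) [TopologicalSpace M] [T2Space M] [CompactSpace M] [ConnectedSpace M]
    [MeasurableSpace M] [BorelSpace M]
    [ChartedSpace E M] [IsManifold 𝓘(ℝ, E) ∞ M] (f : Diffeomorph 𝓘(ℝ, E) 𝓘(ℝ, E) M M 1)
    (hf2 : ContMDiff 𝓘(ℝ, E) 𝓘(ℝ, E) 2 f) (hf2' : ContMDiff 𝓘(ℝ, E) 𝓘(ℝ, E) 2 f.symm)
    (Es Eu : ∀ x : M, Submodule ℝ (TangentSpace 𝓘(ℝ, E) x)) (hA : IsAnosov f Es Eu)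
    (N : TangentBundle 𝓘(ℝ, E) M → ℝ) (hN : IsTangentNorm N)
    (ds du : ℕ) (h2s : 2 ≤ ds) (h2u : 2 ≤ du) (hds : ∀ x, Module.finrank ℝ (Es x) = ds)
    (hdu : ∀ x, Module.finrank ℝ (Eu x) = du)
    (hD : PeriodicDistortion f N Eu ∨ PeriodicDistortion f N Es)
    (hμ : PreservesMeasure ν f f.symm ∨ LocalDeterminants E f f.symm) :
    ∃ (m : ℕ) (A : Matrix (Fin m) (Fin m) ℤ) (P : (Fin m → ℝ) → M),
      IsUnit A.det ∧ HypMat A ∧ IsCoveringMap P ∧ Function.Surjective P ∧
      (∀ x, f (P x) = P ((A.map (Int.cast : ℤ → ℝ)).mulVec x)) ∧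
      (∀ (x : Fin m → ℝ) (z : Fin m → ℤ), P (x + fun i => (z i : ℝ)) = P x) ∧
      (∀ a, ∃ S : Finset (Fin m → ℝ), ∀ x, P x = a → ∃ s ∈ S, ∃ z : Fin m → ℤ,
        x = s + fun i => (z i : ℝ)) ∧
      ∀ x y, P x = P y → ∃ (B : Matrix (Fin m) (Fin m) ℤ) (c : Fin m → ℝ), IsUnit B.det ∧
        y = (B.map (Int.cast : ℤ → ℝ)).mulVec x + c ∧
        ∀ w, P ((B.map (Int.cast : ℤ → ℝ)).mulVec w + c) = P w := by
  have hnw : ∀ U : Set M, IsOpen U → U.Nonempty →
      ∃ m : ℕ, 1 ≤ m ∧ (f^[m] '' U ∩ U).Nonempty :=
    nonwandering f.toHomeomorph (transitive E ν M f hf2 hf2' Es Eu hA hμ)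
  obtain ⟨m, A, P, h1, h2, h3, h4, h5, h6, h7⟩ :=
    (Pool.Agent.Y321.PD.main_per E M f hf2 hf2' Es Eu hA N hN ds du h2s h2u hds hdu hnw hD).1
  exact ⟨m, A, P, h1, h2, h3, h4, h5, h6, fib_fin P h3 h6, h7⟩

end Pool.Agent.Results.MP_5c499f_an.InfiniteMeasureToral
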