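import Pool.Agent.Run7.h575.HF.A5

set_option autoImplicit false

open scoped Manifold ContDiff Topology Pointwise
open Set Filter

namespace Pool.Agent.Results.MP_5c499f_an.StablePoint

open Pool.Agent.H721R2 Pool.Agent.H789R2.AN Pool.Agent.Y330.N Pool.Agent.TH289.K

/-- The stable leaf of `x` for the map `f`: the points whose forward orbit is asymptotic to that of
`x`. -/
def leaf {M : Type*} [TopologicalSpace M] (f : M → M) (x : M) : Set M :=
  {y | Tendsto (fun n : ℕ => (f^[n] x, f^[n] y)) atTop (𝓝ˢ (diagonal M))}

/-- `R` is nonempty, closed, invariant under `f` (`f x ∈ R ↔ x ∈ R`) and a union of stable leaves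
of `f`. -/
def Saturated {M : Type*} [TopologicalSpace M] (f : M → M) (R : Set M) : Prop :=
  IsClosed R ∧ R.Nonempty ∧ (∀ x, f x ∈ R ↔ x ∈ R) ∧ ∀ x ∈ R, leaf f x ⊆ R

/-- `R` is a minimal nonempty closed invariant union of stable leaves of `f`.  (There are such sets;
if `f` is a topologically transitive Anosov diffeomorphism then `R = M` is the only one.) -/
def MinimalSaturated {M : Type*} [TopologicalSpace M] (f : M → M) (R : Set M) : Prop :=
  Saturated f R ∧ ∀ R', Saturated f R' → R' ⊆ R → R' = R

/-- The point `x` is stable for the stable holonomies of `f`, with final level `j`: for some `i`,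
if `α` is a stable path from `x`, of whatever length, and the holonomy along `α` moves the point
`β 0` of the unstable leaf of `x` to `β 1` (that is, `β` is a stable path and `β s` lies in the
unstable leaf of `α s`), and if the level of `x`, `β 0` is at most `i`, then the level of `α 1`,
`β 1` is at most `j`. -/
def StableAt {M : Type*} [TopologicalSpace M] (f : M ≃ₜ M) (𝒰 : Set (M × M)) (j : ℤ) (x : M) :
    Prop :=
  ∃ i : ℤ, ∀ α β : C(unitInterval, M), α 0 = x → StablePath f α → StablePath f β →
    UnstablyRelated f α β → ZLevel f 𝒰 i (α 0) (β 0) → ZLevel f 𝒰 j (α 1) (β 1)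

/-- **Anosov diffeomorphisms with one stable point.**
Let `f` be a `C¹` Anosov diffeomorphism of a closed connected manifold `M` modelled on the
finite-dimensional space `E`.  There is a neighbourhood `𝒰₀` of the diagonal of `M × M` such that the
following holds for every neighbourhood `𝒰` of the diagonal contained in `𝒰₀` and for `g = f` or
`g = f⁻¹`.  (The level of two points `y`, `z` of an unstable leaf of `g` is at most `i` if `g⁻ⁿ y`
and `g⁻ⁿ z` are `𝒰`-close for all integers `n ≥ i`, `ZLevel`; it is a dynamical version of the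
logarithm of their distance in the leaf.)

(1) The following conditions are equivalent.
* The stable holonomies of `g` are uniformly bounded (`BoundedHolonomy g 𝒰`): for some `k` they
  increase the levels by at most `k`, for all pairs of points of unstable leaves and all stable
  paths, of whatever length.
* All points are stable, for all final levels (`StableAt`).
* For some minimal nonempty closed invariant union `R` of stable leaves of `g`, ONE point of `R` is
  stable, for ONE final level `j`.
* `f` is topologically transitive and ONE point of `M` is stable, for ONE final level `j`.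

(2) If they hold then `f` is topologically transitive, it has global product structure (`GPS`), there
is a surjective covering map `E → M`, where `E ≅ ℝⁿ`, `n = dim M`, and the fundamental group of `M`
has polynomial growth: there is an exponent `d` such that for every finite set `S` of elements of
`π₁(M, x)` the number of products of `n` elements of `S` is at most `C (n + 1) ^ d`, `C = C(S)`. -/
theorem result (E : Type*) [NormedAddCommGroup E] [NormedSpace ℝ E] [FiniteDimensional ℝ E]
    (M : Type*) [TopologicalSpace M] [T2Space M] [CompactSpace M] [ConnectedSpace M]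
    [ChartedSpace E M] [IsManifold 𝓘(ℝ, E) ∞ M] (f : Diffeomorph 𝓘(ℝ, E) 𝓘(ℝ, E) M M 1)
    (Es Eu : ∀ x : M, Submodule ℝ (TangentSpace 𝓘(ℝ, E) x)) (hA : IsAnosov f Es Eu) :
    ∃ 𝒰₀ ∈ 𝓝ˢ (diagonal M), ∀ 𝒰 ∈ 𝓝ˢ (diagonal M), 𝒰 ⊆ 𝒰₀ →
      ∀ g : M ≃ₜ M, (g = f.toHomeomorph ∨ g = f.toHomeomorph.symm) →
      List.TFAE [BoundedHolonomy g 𝒰, ∀ j x, StableAt g 𝒰 j x,
        ∃ R, MinimalSaturated g R ∧ ∃ x ∈ R, ∃ j, StableAt g 𝒰 j x,
        TopTransitive f ∧ ∃ x j, StableAt g 𝒰 j x] ∧
      (BoundedHolonomy g 𝒰 → TopTransitive f ∧ GPS f.toHomeomorph ∧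
        (∃ π : E → M, IsCoveringMap π ∧ Function.Surjective π) ∧
        ∃ d : ℕ, ∀ (x : M) (S : Set (FundamentalGroup M x)), S.Finite →
          ∃ C : ℕ, ∀ n : ℕ, (S ^ n).ncard ≤ C * (n + 1) ^ d) := by
  obtain ⟨𝒰₀, h1, h2⟩ := Run7.h575.HF.man_fol f Es Eu hA
  exact ⟨𝒰₀, h1, fun 𝒰 h𝒰 hsub g hg => ⟨(h2 𝒰 h𝒰 hsub g hg).1, (h2 𝒰 h𝒰 hsub g hg).2.2⟩⟩

end Pool.Agent.Results.MP_5c499f_an.StablePoint
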