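import Pool.Agent.Run7.h491.AC.Main

/-!
# Conjugacy classes of Anosov diffeomorphisms are open and closed in the `C⁰` topology

Whether an Anosov diffeomorphism `f` of `M` is topologically conjugate to a hyperbolic automorphism
`A` of an infranilmanifold (Q1) depends only on the `C⁰`-connected component of `f` in the set of the
Anosov diffeomorphisms of `M`: a `C⁰`-small change of `f` within the Anosov diffeomorphisms does not
matter, however large the derivatives are and however weak the hyperbolicity is. More generally this
holds for the conjugacy to any topologically transitive map `A` of a space.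

The first part (and the transitivity statement of the second) is a theorem of helper491, first handed
in for the question whether Anosov diffeomorphisms are transitive (`MP_610fe3_an.UniformlyClose`).
-/

set_option autoImplicit false

open scoped Manifold ContDiff Topology
open Set Filter

namespace Pool.Agent.Results.MP_5c499f_an.UniformlyClose

open Pool.Agent.H721R2 Pool.Agent.H789R2.AN

/-- `f` is topologically conjugate to `A` -/
def Conj {M N : Type*} [TopologicalSpace M] [TopologicalSpace N] (f : M → M) (A : N → N) : Prop :=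
  ∃ H : M ≃ₜ N, ∀ x, H (f x) = A (H x)

theorem Conj.transitive {M N : Type*} [TopologicalSpace M] [TopologicalSpace N] {f : M → M}
    {A : N → N} (h : Conj f A) (hA : TopTransitive A) : TopTransitive f := by
  obtain ⟨H, hH⟩ := h
  have hn : ∀ (n : ℕ) (x : M), H (f^[n] x) = A^[n] (H x) := by
    intro n
    induction n with
    | zero => intro x; rfl
    | succ n ih =>
      intro x
      rw [Function.iterate_succ_apply, Function.iterate_succ_apply, ih, hH]
  intro U V hU hUn hV hVn
  obtain ⟨n, y, ⟨x, hx, rfl⟩, hy⟩ := hA (H '' U) (H '' V) (H.isOpenMap U hU) (hUn.image H)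
    (H.isOpenMap V hV) (hVn.image H)
  obtain ⟨u, hu, rfl⟩ := hx
  obtain ⟨v, hv, hv'⟩ := hy
  refine ⟨n, f^[n] u, ⟨u, hu, rfl⟩, ?_⟩
  rw [← hn] at hv'
  rwa [← H.injective hv']

theorem Conj.trans {M N P : Type*} [TopologicalSpace M] [TopologicalSpace N] [TopologicalSpace P]
    {f : M → M} {A : N → N} {B : P → P} (h : Conj f A) (h' : Conj A B) : Conj f B := by
  obtain ⟨H, hH⟩ := h
  obtain ⟨K, hK⟩ := h'
  exact ⟨H.trans K, fun x => by simp [hH, hK]⟩

theorem Conj.symm {M N : Type*} [TopologicalSpace M] [TopologicalSpace N]
    {f : M → M} {A : N → N} (h : Conj f A) : Conj A f := by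
  obtain ⟨H, hH⟩ := h
  refine ⟨H.symm, fun y => ?_⟩
  obtain ⟨x, rfl⟩ := H.surjective y
  rw [← hH]
  simp

/-- Let `M` be a closed connected smooth manifold, with any metric inducing its topology.

* Let `g` be a `C¹` Anosov diffeomorphism of `M` and `ε > 0`. There is `δ > 0` such that for *every* `C¹`
  Anosov diffeomorphism `f` of `M` with `d(f(x), g(x)) < δ` for all `x` (nothing is assumed about the
  derivative of `f`, its invariant splitting or its constants) there is a continuous map `h` with
  `h ∘ f = g ∘ h` and `d(h(x), x) < ε` for all `x` such that `h` maps the closure of the set of periodic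
  points of `f` bijectively onto the closure of the set of periodic points of `g` and maps no other
  point into it, `f` is topologically transitive if and only if `g` is, and if `g` is topologically
  transitive then `h` is a homeomorphism. Hence for every topologically transitive map `A` of a
  topological space (for instance a hyperbolic infranilmanifold automorphism), `f` is topologically
  conjugate to `A` if and only if `g` is.
* In a family `(f_t)` of `C¹` Anosov diffeomorphisms of `M` with `(t, x) ↦ f_t(x)` continuous and with a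
  connected parameter space, if one `f_t` is topologically transitive, then all are, and they are all
  topologically conjugate. If one `f_t` is topologically conjugate to a topologically transitive map
  `A`, then all are. -/
theorem result (E : Type*) [NormedAddCommGroup E] [NormedSpace ℝ E] [FiniteDimensional ℝ E]
    (M : Type*) [MetricSpace M] [CompactSpace M] [ConnectedSpace M]
    [ChartedSpace E M] [IsManifold 𝓘(ℝ, E) ∞ M] :
    (∀ (g : Diffeomorph 𝓘(ℝ, E) 𝓘(ℝ, E) M M 1)
      (Es Eu : ∀ x : M, Submodule ℝ (TangentSpace 𝓘(ℝ, E) x)), IsAnosov g Es Eu →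
      ∀ ε > 0, ∃ δ > 0, ∀ (f : Diffeomorph 𝓘(ℝ, E) 𝓘(ℝ, E) M M 1)
        (Es' Eu' : ∀ x : M, Submodule ℝ (TangentSpace 𝓘(ℝ, E) x)), IsAnosov f Es' Eu' →
        (∀ x, dist (f x) (g x) < δ) →
        (∃ h : C(M, M), (∀ x, h (f x) = g (h x)) ∧ (∀ x, dist (h x) x < ε) ∧
          BijOn h (closure (Function.periodicPts f)) (closure (Function.periodicPts g)) ∧
          h ⁻¹' closure (Function.periodicPts g) = closure (Function.periodicPts f) ∧
          (TopTransitive f ↔ TopTransitive g) ∧
          (TopTransitive g → ∃ H : M ≃ₜ M, ∀ x, H x = h x)) ∧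
        ∀ (N : Type*) [TopologicalSpace N] (A : N → N), TopTransitive A →
          (Conj f A ↔ Conj g A)) ∧
    ∀ (T : Type*) [TopologicalSpace T] [ConnectedSpace T]
      (f : T → Diffeomorph 𝓘(ℝ, E) 𝓘(ℝ, E) M M 1)
      (Es Eu : T → ∀ x : M, Submodule ℝ (TangentSpace 𝓘(ℝ, E) x)),
      (∀ t, IsAnosov (f t) (Es t) (Eu t)) → Continuous (fun p : T × M => f p.1 p.2) →
      ∀ t₀, (TopTransitive (f t₀) → ∀ t, TopTransitive (f t) ∧ Conj (f t) (f t₀)) ∧
        ∀ (N : Type*) [TopologicalSpace N] (A : N → N), TopTransitive A → Conj (f t₀) A →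
          ∀ t, Conj (f t) A := by
  refine ⟨fun g Es Eu hg ε hε => ?_, fun T _ _ f Es Eu hA hc t₀ => ?_⟩
  · obtain ⟨δ, hδ, h1⟩ := Pool.Agent.Run7.h491.AC.met_main g Es Eu hg ε hε
    refine ⟨δ, hδ, fun f Es' Eu' hf hclose => ?_⟩
    obtain ⟨h, hc, h2⟩ := h1 f Es' Eu' hf hclose
    refine ⟨⟨⟨h, hc⟩, h2⟩, fun N _ A hA => ?_⟩
    obtain ⟨h3, -, -, -, h4, h5⟩ := h2
    have key : TopTransitive g → Conj f g := by
      intro hg
      obtain ⟨H, hH⟩ := h5 hg
      exact ⟨H, fun x => by rw [hH, hH, h3]⟩
    constructor
    · intro hf'
      exact (key (h4.1 (hf'.transitive hA))).symm.trans hf'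
    · intro hg'
      exact (key (hg'.transitive hA)).trans hg'
  · have h1 : TopTransitive (f t₀) → ∀ t, TopTransitive (f t) ∧ Conj (f t) (f t₀) := by
      intro h0 t
      obtain ⟨h2, H, hH⟩ := Pool.Agent.Run7.h491.AC.fam_main f Es Eu hA hc t₀ h0 t
      exact ⟨h2, H, hH⟩
    exact ⟨h1, fun N _ A hA' hconj t => (h1 (hconj.transitive hA') t).2.trans hconj⟩

end Pool.Agent.Results.MP_5c499f_an.UniformlyClose
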